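import Pool.Agent.Helper76.PP.Goals3
import Pool.Agent.Helper42.RD.VAL

/-!
# Project PP, part B: functionals and ray class functions (`B_CHR`)
-/

set_option autoImplicit false

namespace Pool.Agent.Helper96.PP

open NumberField Polynomial Module IsDedekindDomain
open Pool.Agent.Helper51.RP Pool.Agent.Helper42.RD Pool.Agent.Helper42.PP
open Pool.Agent.Helper76.PP

variable {F : Type} [Field F] [NumberField F]

theorem irr_mk (w : HeightOneSpectrum (𝓞 F)) : Irreducible (Associates.mk w.asIdeal) :=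
  w.associates_irreducible

theorem co_mul (w : HeightOneSpectrum (𝓞 F)) {I J : Ideal (𝓞 F)} (hI : I ≠ ⊥) (hJ : J ≠ ⊥) :
    co w (I * J) = co w I + co w J := by
  unfold co
  have hI' : Associates.mk I ≠ 0 := Associates.mk_ne_zero.2 hI
  have hJ' : Associates.mk J ≠ 0 := Associates.mk_ne_zero.2 hJ
  rw [← Associates.mk_mul_mk, Associates.count_mul hI' hJ' (irr_mk w)]
  push_cast
  rfl

theorem co_fin {I : Ideal (𝓞 F)} (hI : I ≠ ⊥) :
    {w : HeightOneSpectrum (𝓞 F) | co w I ≠ 0}.Finite := by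
  have h := Associates.finite_factors (R := 𝓞 F) (I := I) hI
  rw [Filter.eventually_cofinite] at h
  exact h

theorem co_self (w : HeightOneSpectrum (𝓞 F)) : co w w.asIdeal = 1 := by
  unfold co
  rw [Associates.count_self (irr_mk w)]
  rfl

theorem co_of_ne {w v : HeightOneSpectrum (𝓞 F)} (h : w ≠ v) : co w v.asIdeal = 0 := by
  unfold co
  rw [Associates.count_eq_zero_of_ne (irr_mk w) (irr_mk v)]
  · rfl
  · intro e
    apply h
    ext1
    exact associated_iff_eq.1 (Associates.mk_eq_mk_iff_associated.1 e)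

theorem co_span (w : HeightOneSpectrum (𝓞 F)) {α : 𝓞 F} (hα : α ≠ 0) :
    ordv w (α : F) = co w (Ideal.span {α}) := by
  unfold ordv co
  rw [HeightOneSpectrum.valuation_of_algebraMap, HeightOneSpectrum.intValuation_if_neg _ hα,
    WithZero.log_exp, neg_neg]

/-- Units outside `Z`. -/
theorem mem_unit_of_ordv {Z : Set (HeightOneSpectrum (𝓞 F))} {x y : Fˣ}
    (h : ∀ w ∉ Z, ordv w (x : F) = ordv w (y : F)) : x * y⁻¹ ∈ Z.unit F := by
  show ∀ w ∉ Z, w.valuation F ((x * y⁻¹ : Fˣ) : F) = 1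
  intro w hw
  rw [← ordv_eq_zero_iff w (Units.ne_zero _), Units.val_mul, Units.val_inv_eq_inv_val,
    ordv_mul w (Units.ne_zero _) (inv_ne_zero (Units.ne_zero _)), ordv_inv w (Units.ne_zero _),
    h w hw]
  ring

theorem b_chr : B_CHR := by
  intro p _ F _ _ Z hZ 𝔪 hm f hf hu hray
  -- values of homomorphisms
  have hf' : ∀ x y : Fˣ, (∀ w ∉ Z, ordv w (x : F) = ordv w (y : F)) → f x = f y := by
    intro x y h
    have h1 := hu _ (mem_unit_of_ordv h)
    have h2 := hf (x * y⁻¹) y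
    rwa [inv_mul_cancel_right, h1, zero_add] at h2
  have h1 : ∀ I : Ideal (𝓞 F), I ≠ ⊥ → ∃ x : Fˣ, ∀ w ∉ Z, ordv w (x : F) = co w I := by
    intro I hI
    obtain ⟨x, hx⟩ := hZ (Finsupp.onFinset (co_fin hI).toFinset (fun w ↦ co w I) (by
      intro w hw
      rw [Set.Finite.mem_toFinset]
      exact hw))
    exact ⟨x, fun w hw ↦ by rw [hx w hw]; rfl⟩
  have h2 : ∀ (I : Ideal (𝓞 F)) (x : Fˣ), (∀ w ∉ Z, ordv w (x : F) = co w I) →
      idl Z f I = f x := by
    intro I x hx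
    have he : ∃ x : Fˣ, ∀ w ∉ Z, ordv w (x : F) = co w I := ⟨x, hx⟩
    unfold idl
    rw [dif_pos he]
    exact hf' _ _ fun w hw ↦ (he.choose_spec w hw).trans (hx w hw).symm
  have h4 : ∀ (x : Fˣ) (α : 𝓞 F), (x : F) = α → idl Z f (Ideal.span {α}) = f x := by
    intro x α hx
    have hα : α ≠ 0 := by
      rintro rfl
      exact Units.ne_zero x (by rw [hx]; exact map_zero _)
    refine h2 _ _ fun w _ ↦ ?_
    rw [hx, co_span w hα]
  refine ⟨h1, h2, ⟨hm, ?_, ?_⟩, h4, ?_⟩
  · intro I J hI hJ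
    obtain ⟨x, hx⟩ := h1 I hI
    obtain ⟨y, hy⟩ := h1 J hJ
    rw [h2 I x hx, h2 J y hy, ← hf]
    refine h2 _ _ fun w hw ↦ ?_
    rw [Units.val_mul, ordv_mul w (Units.ne_zero _) (Units.ne_zero _), hx w hw, hy w hw,
      co_mul w hI hJ]
  · intro α hα hα1
    have hα' : (α : F) ≠ 0 := by
      intro h
      exact hα ((FaithfulSMul.algebraMap_injective (𝓞 F) F) (by rw [map_zero]; exact h))
    rw [h4 (Units.mk0 (α : F) hα') α rfl]
    exact hray _ α rfl hα1
  · intro v x hx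
    refine h2 _ _ fun w hw ↦ ?_
    by_cases h : w = v
    · rw [(hx w hw).1 h, h, co_self]
    · rw [(hx w hw).2 h, co_of_ne h]

end Pool.Agent.Helper96.PP
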