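import Pool.Agent.Helper17.PP.GoalsC1

/-!
# Project PP: the main part of the expansion (`C_PMN`)
-/

namespace Pool.Agent.Helper96.PP

open Finset Pool.Agent.Helper17.PP

variable {p : ℕ} {B B₀ k U Λ C : Type} [Field k] [AddCommGroup U] [Module k U]
    [AddCommGroup Λ] [Module k Λ] [AddCommGroup C]

theorem card_rg (S : Sys p B B₀ k U Λ C) (E : ℕ) (b : Finset B) (q : B)
    (hE : S.bl q ≤ th E (S.bl q)) :
    (S.rg E b q).card = (S.rs b q).card + (S.rt E b q).card := by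
  classical
  have hu : S.rg E b q = S.rs b q ∪ S.rt E b q := by
    ext q'
    simp only [Sys.rg, Sys.rs, Sys.rt, mem_union, mem_filter]
    constructor
    · rintro ⟨h1, h2, h3, h4⟩
      rcases lt_or_gt_of_ne h3 with h | h
      · exact Or.inl ⟨h1, h2, h⟩
      · exact Or.inr ⟨h1, h2, h, h4⟩
    · rintro (⟨h1, h2, h3⟩ | ⟨h1, h2, h3, h4⟩)
      · exact ⟨h1, h2, h3.ne, (h3.le.trans hE)⟩
      · exact ⟨h1, h2, h3.ne', h4⟩
  rw [hu, card_union_of_disjoint]
  rw [disjoint_left]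
  intro q' h1 h2
  simp only [Sys.rs, Sys.rt, mem_filter] at h1 h2
  omega

theorem rg_subset (S : Sys p B B₀ k U Λ C) (E : ℕ) (b : Finset B) (q : B) :
    S.rg E b q ⊆ b := by
  classical
  intro q' h
  simp only [Sys.rg, mem_filter, mem_erase] at h
  exact h.1.2

theorem c_pmn (hlab : C_LAB) : C_PMN := by
  classical
  intro p _ B B₀ k U Λ C _ _ _ _ _ _ _ _ _ _ S ψ E P b q hbP hq hE
  obtain ⟨h1, -, -, h4, -⟩ := hlab B k P
  have hrg : S.rg E b q ⊆ P := (rg_subset S E b q).trans hbP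
  have h4' := h4 (fun _ ↦ (1 : ℂ)) (S.rg E b q) hrg (fun _ _ _ _ ↦ rfl)
  set Q : ℂ := (Fintype.card k : ℂ) with hQ
  have hQ0 : Q ≠ 0 := by
    rw [hQ]
    exact_mod_cast Fintype.card_ne_zero
  set L : ℂ := ((lab k P).card : ℂ) with hL
  have hL0 : L ≠ 0 := by
    rw [hL, h1]
    push_cast
    exact pow_ne_zero _ hQ0
  have hΛ0 : (Fintype.card Λ : ℂ) ≠ 0 := by exact_mod_cast Fintype.card_ne_zero
  have hcard := card_rg S E b q hE
  -- the number of `y`
  have hy : ∑ y ∈ lab k P with (∀ q' ∈ S.rg E b q, y q' ≠ 0 ↔ q' ∈ (∅ : Finset B)), (1 : ℂ) =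
      L / Q ^ (S.rg E b q).card := by
    have e1 : ((lab k P).filter fun y ↦ (∀ q' ∈ S.rg E b q, y q' ≠ 0 ↔ q' ∈ (∅ : Finset B))) =
        ((lab k P).filter fun y ↦ (∀ q' ∈ S.rg E b q, y q' = 0)) := by
      apply filter_congr
      intro y _
      apply forall₂_congr
      intro q' _
      simp
    rw [e1, eq_div_iff (pow_ne_zero _ hQ0), mul_comm]
    refine Eq.trans ?_ (h4'.trans ?_)
    · rfl
    · simp [hL]
  -- the number of `t`
  have ht : ∑ t : k with t ≠ 0, (1 : ℂ) = Q - 1 := by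
    have e : (univ.filter fun t : k ↦ t ≠ 0) = univ.erase 0 := by
      ext t
      simp
    rw [e, sum_const, card_erase_of_mem (mem_univ _), card_univ, nsmul_eq_mul, mul_one,
      Nat.cast_sub Fintype.card_pos]
    simp [hQ]
  unfold Sys.part
  have key : ∑ x : U, ∑ t : k with t ≠ 0, ∑ c ∈ lab k P,
      ∑ y ∈ lab k P with (∀ q' ∈ S.rg E b q, y q' ≠ 0 ↔ q' ∈ (∅ : Finset B)),
        (1 : AddChar Λ ℂ) (S.lam₀ x + ∑ q' ∈ b, S.lam q' (S.trc b q t c q')) *
          ∏ q' ∈ (∅ : Finset B), ψ (y q' * S.R b x (S.trc b q t c) q') =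
      (Fintype.card U : ℂ) * ((Q - 1) * (L * (L / Q ^ (S.rg E b q).card))) := by
    have hterm : ∀ (x : U) (t : k) (c y : B → k),
        (1 : AddChar Λ ℂ) (S.lam₀ x + ∑ q' ∈ b, S.lam q' (S.trc b q t c q')) *
          ∏ q' ∈ (∅ : Finset B), ψ (y q' * S.R b x (S.trc b q t c) q') = 1 := by
      intro x t c y
      simp
    simp only [hterm, hy]
    rw [sum_const (s := lab k P), nsmul_eq_mul]
    rw [sum_const (s := (univ : Finset U)), card_univ, nsmul_eq_mul]
    congr 1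
    rw [← ht, sum_mul]
    simp [hL]
  rw [key, hcard, pow_add]
  have h2 : (1 / Q) ^ (S.rt E b q).card = 1 / Q ^ (S.rt E b q).card := by
    rw [div_pow, one_pow]
  rw [h2, ← hQ, ← hL]
  field_simp

end Pool.Agent.Helper96.PP
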